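import Pool.Agent.H86.RB.FamR

/-!
# The ribbon number is additive for ribbon knots with large determinants

Knots are long knots, that is `(1,1)`-tangle diagrams cut into slices (`Pool.Agent.H86.RB.Defs`), up to planar isotopy and
Reidemeister moves; the connected sum is the composition of diagrams. Ribbon disks are described by band slices. `col N K` is the
number of Fox `N`-colourings of `K` whose lower end has colour `0`; it is at most the determinant of `K`, with equality when `N` is a
multiple of the determinant.
-/

set_option autoImplicit false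

namespace Pool.Agent.Results.MP_35d159_gt.LargeDeterminant

open Pool.Agent.H86.RB

theorem result :
    -- a bound for the determinant
    (∀ K : Wd, Kn K → Rb K → ∀ (N : ℕ) [NeZero N], col N K ≤ (max 1 (2 ^ rib K - 1)) ^ 2) ∧
    -- additivity for all lists of ribbon knots with large determinants
    (∀ L : List Wd, (∀ K ∈ L, Kn K ∧ Rb K) → ∀ (N : ℕ) [NeZero N],
      (max 1 (2 ^ ((L.map rib).sum - 1) - 1)) ^ 2 < (L.map (fun K => col N K)).prod →
      rib L.flatten = (L.map rib).sum) ∧
    -- the bound is sharp for every `n ≥ 2`
    (∀ n : ℕ, 2 ≤ n → Kn (knot n) ∧ Rb (knot n) ∧ rib (knot n) = n ∧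
      ∀ [NeZero (2 ^ n - 1)], col (2 ^ n - 1) (knot n) = (2 ^ n - 1) ^ 2) ∧
    -- additivity for different members of this family
    (∀ ns : List ℕ, ns.Nodup → (∀ n ∈ ns, 2 ≤ n) → rib (ns.map knot).flatten = ns.sum) := by
  refine ⟨fun K _ h N _ => rib_det K h N, fun L h N _ hN => add_det L h N hN, fun n hn => ?_,
    fun ns hns h2 => ?_⟩
  · obtain ⟨k, rfl⟩ : ∃ k, n = k + 2 := ⟨n - 2, by omega⟩
    have hk : k + 2 - 2 = k := by omega
    unfold knot
    rw [hk]
    exact ⟨kn_fam k, rb_fam k, rib_fam k, fun {_} => col_fam k⟩
  · have h := rib_distinct (ns.map (fun n => n - 2)) (by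
      rw [List.nodup_map_iff_inj_on hns]
      intro a ha b hb hab
      have h3 := h2 a ha
      have h4 := h2 b hb
      omega)
    rw [List.map_map, List.map_map] at h
    have h5 : ns.map ((fun k => k + 2) ∘ fun n => n - 2) = ns := by
      conv_rhs => rw [← List.map_id ns]
      apply List.map_congr_left
      intro n hn
      have := h2 n hn
      simp only [Function.comp_apply, id]
      omega
    rw [h5] at h
    exact h

end Pool.Agent.Results.MP_35d159_gt.LargeDeterminant
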