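import Pool.Agent.H86.RB.FamR

/-!
# The ribbon number is additive on the ribbon knots with `3 ^ r` tricolourings

Knots are long knots, that is `(1,1)`-tangle diagrams cut into slices (`Pool.Agent.H86.RB.Defs`), up to planar isotopy and
Reidemeister moves; the connected sum is the composition of diagrams. Ribbon disks are described by band slices. `col 3 K` is the
number of Fox `3`-colourings of `K` whose lower end has colour `0`.
-/

set_option autoImplicit false

namespace Pool.Agent.Results.MP_35d159_gt.ManyTricolourings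

open Pool.Agent.H86.RB

theorem result :
    -- a bound for the number of tricolourings
    (∀ K : Wd, Kn K → Rb K → col 3 K ≤ 3 ^ (2 * (rib K / 2))) ∧
    -- additivity for all lists of ribbon knots with many tricolourings
    (∀ L : List Wd, (∀ K ∈ L, Kn K ∧ Rb K) →
      3 ^ (2 * (((L.map rib).sum - 1) / 2)) < (L.map (fun K => col 3 K)).prod →
      rib L.flatten = (L.map rib).sum) ∧
    -- a class of ribbon knots which is closed under the connected sum, with additive ribbon number
    (∀ L : List Wd, (∀ K ∈ L, Kn K ∧ Rb K ∧ col 3 K = 3 ^ rib K) →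
      Kn L.flatten ∧ Rb L.flatten ∧ rib L.flatten = (L.map rib).sum ∧
        col 3 L.flatten = 3 ^ rib L.flatten) ∧
    -- an example
    (Kn (knot 2) ∧ Rb (knot 2) ∧ rib (knot 2) = 2 ∧ col 3 (knot 2) = 9 ∧
      ∀ n : ℕ, rib (List.replicate n (knot 2)).flatten = 2 * n) := by
  have : Fact (Nat.Prime 3) := ⟨Nat.prime_three⟩
  refine ⟨fun K _ h => rib_prime K h 3 (by norm_num), fun L h h3 => add_three L h h3,
    fun L h => ?_, kn_fam 0, rb_fam 0, rib_fam 0, ?_, rib_copies⟩
  · have h1 : ∀ K ∈ L, Kn K ∧ Rb K := fun K hK => ⟨(h K hK).1, (h K hK).2.1⟩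
    have h2 := class_three L h1 fun K hK => (h K hK).2.2
    exact ⟨kn_flatten L fun K hK => (h K hK).1, rb_flatten L h1, h2.1, h2.2⟩
  · have : NeZero (2 ^ (0 + 2) - 1) := ⟨D_ne 0⟩
    have h := col_fam 0
    have e : knot 2 = bdw (fam 0) := rfl
    rw [e]
    simpa using h

end Pool.Agent.Results.MP_35d159_gt.ManyTricolourings
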