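import Pool.Agent.H86.RN.NMain

/-!
# The ribbon number is not additive under the connected sum

Knots are long knots, that is `(1,1)`-tangle diagrams cut into slices (`Pool.Agent.H86.RB.Defs`), up to planar isotopy and
Reidemeister moves; the connected sum is the composition of diagrams. Ribbon disks are described by band slices, and `rib K` is
the least number of ribbon singularities (passes) of a ribbon disk of `K`. `kq` (`Pool.Agent.H86.RN.NDefs`) is the knot
`10_123`, the closure of the alternating braid with three strands and ten crossings, cut at one point: a cup and a cup, the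
crossings `neg 2, pos 1` five times, a cap and a cap.
-/

set_option autoImplicit false

namespace Pool.Agent.Results.MP_35d159_gt.NotAdditive

open Pool.Agent.H86.RB Pool.Agent.H86.RN

private theorem kn_kq : Kn kq := ⟨rfl, by decide +kernel⟩

private theorem kn_two : Kn (kq ++ kq) := ⟨rfl, by decide +kernel⟩

theorem result :
    -- `kq` is a ribbon knot with ribbon number five
    (Kn kq ∧ Rb kq ∧ rib kq = 5) ∧
    -- the connected sum of `kq` with itself is a ribbon knot with ribbon number at most nine
    (Kn (kq ++ kq) ∧ Rb (kq ++ kq) ∧ rib (kq ++ kq) ≤ 9) ∧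
    -- the ribbon number is not additive
    ¬ ∀ K₁ K₂ : Wd, Kn K₁ → Rb K₁ → Kn K₂ → Rb K₂ → rib (K₁ ++ K₂) = rib K₁ + rib K₂ := by
  refine ⟨⟨kn_kq, rb_kq, rib_kq⟩, ⟨kn_two, rb_two, rib_two⟩, fun h => ?_⟩
  have h1 := h kq kq kn_kq rb_kq kn_kq rb_kq
  have h2 := rib_two
  rw [h1, rib_kq] at h2
  omega

end Pool.Agent.Results.MP_35d159_gt.NotAdditive
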