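import Pool.Agent.H86.RU.RMain

/-!
# Connected sums of knots with ribbon number two

Knots are long knots, that is `(1,1)`-tangle diagrams cut into slices (`Pool.Agent.H86.RB.Defs`), up to planar isotopy and
Reidemeister moves; the connected sum is the composition of diagrams. Ribbon disks are described by band slices. `cola T K` is
the number of colourings of `K` by the Alexander quandle of the automorphism `T` whose lower end has colour `0`; `Nt K` says
that some finite abelian group with an automorphism has more than one such colouring; `sh l n` is the cyclic shift on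
`(ZMod l) ^ (n + 1)`.
-/

set_option autoImplicit false

namespace Pool.Agent.Results.MP_35d159_gt.RibbonNumberTwo

open Pool.Agent.H86.RB Pool.Agent.H86.RT Pool.Agent.H86.RU

theorem result :
    -- sums of ribbon knots with ribbon number two and a non-trivial Alexander colouring
    (∀ L : List Wd, (∀ K ∈ L, Kn K ∧ Rb K ∧ rib K = 2 ∧ Nt K) → rib L.flatten = 2 * L.length) ∧
    -- the knots `P(3, -3, n)` are examples
    (∀ (p : Bool) (n : ℕ), Kn (kpz p n) ∧ Rb (kpz p n) ∧ rib (kpz p n) = 2 ∧ Nt (kpz p n)) ∧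
    -- for all primes `l`, `q` and all integer matrices `Θ` that are strictly triangular modulo `q`
    (∀ (l : ℕ) [Fact l.Prime] [NeZero l] (q : ℕ) [Fact q.Prime] (s : ℕ) (Θ : Matrix (Fin s) (Fin s) ℤ),
      0 < s → (∀ a b, a ≤ b → (q : ℤ) ∣ Θ a b) → ∀ (N : ℕ) [NeZero N], 1 < N →
      ∀ Tk : ∀ k : ℕ, (Fin s → ZMod (N ^ k)) ≃+ (Fin s → ZMod (N ^ k)),
      (∀ k v a, Tk k v a = ∑ b, ((Θ a b : ℤ) : ZMod (N ^ k)) * v b) →
      -- a lower bound for the ribbon number
      (∀ K : Wd, Rb K → ∀ n e d : ℕ, l ^ e ≤ cola (sh l n).toAddEquiv K →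
        (∀ k, N ^ (k * d) ≤ cola (Tk k) K) → s * e + 2 * d ≤ 2 * s * rib K) ∧
      -- the class of the knots with equality is closed under the connected sum, with additive ribbon number
      ∀ L : List Wd, (∀ K ∈ L, Cn l N Tk K) →
        rib L.flatten = (L.map rib).sum ∧ Cn l N Tk L.flatten) ∧
    -- for `l = N = 3`, `Θ = (2)` the class contains all knots of the first part
    ∃ Tk : ∀ k : ℕ, (Fin 1 → ZMod (3 ^ k)) ≃+ (Fin 1 → ZMod (3 ^ k)),
      (∀ k v a, Tk k v a = 2 * v a) ∧
        ∀ K : Wd, Kn K → Rb K → rib K = 2 → Nt K → Cn 3 3 Tk K := by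
  refine ⟨rib_sum, fun p n => ⟨(rb_kpz p n).1, (rb_kpz p n).2, rib_kpz p n, nt_kpz p n⟩, ?_, exists_two⟩
  intro l _ _ q _ s Θ hs hΘ N _ hN Tk hT
  exact ⟨fun K hK n e d he hd => bnd_sh l N Tk K hK q Θ hΘ hN hT n e d he hd,
    fun L hL => cn_flatten l N Tk q hs Θ hΘ hN hT L hL⟩

end Pool.Agent.Results.MP_35d159_gt.RibbonNumberTwo
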